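import Pool.Agent.H242.GX.Stm4

/-!
# Project GX (helper242), GX4-XB: bounds for the web
-/

set_option autoImplicit false

open Set Filter Topology
open scoped ContDiff

namespace Pool.Agent.H154.GX

open Pool.Agent.H242.GX

/-- a smooth function, periodic in the first variable, which vanishes at `t = 0` -/
theorem bound_of (hHAD : S_HAD) {f : ℝ × ℝ → ℝ} (hf : ContDiff ℝ ∞ f) (h0 : ∀ θ : ℝ, f (θ, 0) = 0)
    (hp : ∀ θ t : ℝ, f (θ + 2 * Real.pi, t) = f (θ, t)) :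
    ∃ C : ℝ, 0 < C ∧ ∀ θ t : ℝ, |t| ≤ 1 → |f (θ, t)| ≤ C * |t| := by
  obtain ⟨g, hg, hfg⟩ := hHAD f hf h0
  obtain ⟨C, hC⟩ := (isCompact_Icc (a := ((0 : ℝ), (-1 : ℝ))) (b := (2 * Real.pi, (1 : ℝ)))).exists_bound_of_continuousOn
    hg.continuous.continuousOn
  refine ⟨|C| + 1, by positivity, fun θ t ht => ?_⟩
  have hper : Function.Periodic (fun θ => f (θ, t)) (2 * Real.pi) := fun θ => hp θ t
  obtain ⟨θ', hθ', he⟩ := hper.exists_mem_Ico₀ (by positivity) θ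
  have he' : f (θ, t) = f (θ', t) := he
  have h1 : ‖g (θ', t)‖ ≤ C := by
    apply hC
    have h2 := abs_le.1 ht
    exact ⟨⟨hθ'.1, h2.1⟩, ⟨hθ'.2.le, h2.2⟩⟩
  rw [Real.norm_eq_abs] at h1
  rw [he', hfg, abs_mul, mul_comm]
  apply mul_le_mul_of_nonneg_right _ (abs_nonneg t)
  have h3 := le_abs_self C
  linarith

theorem gx_XB (hHAD : S_HAD) : S_XB := by
  intro X Z hW
  have s1 : ContDiff ℝ ∞ (fun x : ℝ × ℝ => (X x).1 - x.1) := (contDiff_fst.comp hW.smX).sub contDiff_fst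
  have s2 : ContDiff ℝ ∞ (fun x : ℝ × ℝ => (X x).2) := contDiff_snd.comp hW.smX
  obtain ⟨C₁, hC₁, b₁⟩ := bound_of hHAD s1 (fun θ => by
      show (X (θ, 0)).1 - θ = 0
      rw [hW.axis]
      exact sub_self θ) (fun θ t => by
      show (X (θ + 2 * Real.pi, t)).1 - (θ + 2 * Real.pi) = (X (θ, t)).1 - θ
      rw [hW.per]
      ring)
  obtain ⟨C₂, hC₂, b₂⟩ := bound_of hHAD s2 (fun θ => by
      show (X (θ, 0)).2 = 0
      rw [hW.axis]) (fun θ t => by
      show (X (θ + 2 * Real.pi, t)).2 = (X (θ, t)).2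
      rw [hW.per])
  refine ⟨⟨max C₁ C₂, lt_max_of_lt_left hC₁, fun θ t ht => ⟨?_, ?_⟩⟩, ?_⟩
  · exact (b₁ θ t ht).trans (mul_le_mul_of_nonneg_right (le_max_left _ _) (abs_nonneg t))
  · exact (b₂ θ t ht).trans (mul_le_mul_of_nonneg_right (le_max_right _ _) (abs_nonneg t))
  obtain ⟨β, hβ, hXβ⟩ := hHAD (fun x : ℝ × ℝ => (X x).2) s2 (fun θ => by
      show (X (θ, 0)).2 = 0
      rw [hW.axis])
  have hXβ' : ∀ θ t : ℝ, (X (θ, t)).2 = t * β (θ, t) := hXβ
  have hβc : Continuous (fun t : ℝ => β (0, t)) := hβ.continuous.comp (by fun_prop)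
  have hβ0 : 0 < β (0, 0) := by
    have h1 := hW.der2 0
    have h2 : HasDerivAt (fun t : ℝ => (X (0, t)).2) (β (0, 0)) 0 := by
      have h3 : (fun t : ℝ => (X (0, t)).2) = fun t => t * β (0, t) := funext fun t => hXβ' 0 t
      rw [h3, hasDerivAt_iff_tendsto_slope]
      have h4 : Tendsto (fun t : ℝ => β (0, t)) (𝓝[≠] 0) (𝓝 (β (0, 0))) :=
        (hβc.tendsto 0).mono_left nhdsWithin_le_nhds
      refine h4.congr' ?_
      filter_upwards [self_mem_nhdsWithin] with t ht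
      have ht' : t ≠ 0 := ht
      rw [slope_def_field, zero_mul, sub_zero, sub_zero]
      field_simp
    rw [h2.deriv] at h1
    exact h1
  have hev : ∀ᶠ t in 𝓝 (0 : ℝ), β (0, 0) / 2 < β (0, t) := by
    apply (hβc.tendsto 0).eventually
    exact lt_mem_nhds (by linarith)
  obtain ⟨r, hr, hball⟩ := Metric.eventually_nhds_iff.1 hev
  refine ⟨C₁ * (2 / β (0, 0)), min r 1, by positivity, lt_min hr one_pos, fun t ht => ?_⟩
  have ht1 : |t| < r := lt_of_lt_of_le ht (min_le_left _ _)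
  have ht2 : |t| ≤ 1 := (lt_of_lt_of_le ht (min_le_right _ _)).le
  have h1 : |(X (0, t)).1 - 0| ≤ C₁ * |t| := b₁ 0 t ht2
  rw [sub_zero] at h1
  have h2 : β (0, 0) / 2 < β (0, t) := hball (by rw [Real.dist_eq, sub_zero]; exact ht1)
  have h3 : 0 < β (0, t) := by linarith
  rw [hXβ' 0 t, abs_mul, abs_of_pos h3]
  have h4 : |t| ≤ (2 / β (0, 0)) * (|t| * β (0, t)) := by
    have h5 : 1 ≤ 2 / β (0, 0) * β (0, t) := by
      rw [div_mul_eq_mul_div, le_div_iff₀ hβ0]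
      linarith
    calc |t| = |t| * 1 := (mul_one _).symm
      _ ≤ |t| * (2 / β (0, 0) * β (0, t)) := mul_le_mul_of_nonneg_left h5 (abs_nonneg t)
      _ = (2 / β (0, 0)) * (|t| * β (0, t)) := by ring
  calc |(X (0, t)).1| ≤ C₁ * |t| := h1
    _ ≤ C₁ * ((2 / β (0, 0)) * (|t| * β (0, t))) := mul_le_mul_of_nonneg_left h4 hC₁.le
    _ = C₁ * (2 / β (0, 0)) * (|t| * β (0, t)) := by ring

end Pool.Agent.H154.GX
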